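import Pool.Agent.Helper40.Nm.Goals

/-!
Packet KPT of MP_f619a5_ag: every nonempty open part of the closure of a point of the special
fibre contains the reduction of a section.
-/

open CategoryTheory AlgebraicGeometry Limits TensorProduct

namespace Pool.Agent.Helper82.Nm

open Pool.Agent.Helper40.Nm

theorem closedIncl_apply (R : Type) [CommRing R] [IsLocalRing R] :
    (closedIncl R).left (IsLocalRing.closedPoint (IsLocalRing.ResidueField R)) =
      IsLocalRing.closedPoint R := by
  show Spec.map (CommRingCat.ofHom (IsLocalRing.residue R)) _ = _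
  exact IsLocalRing.comap_closedPoint (IsLocalRing.residue R)

theorem cpt_eq_redk {R : Type} [CommRing R] [IsLocalRing R] {G : Over (Spec (CommRingCat.of R))}
    (s : specOver (RingHom.id R) ⟶ G) :
    cpt s = (redk s).left (IsLocalRing.closedPoint (IsLocalRing.ResidueField R)) := by
  unfold cpt redk
  rw [Over.comp_left, Scheme.Hom.comp_apply, closedIncl_apply]

theorem kpt (h : LIFTK) : KPT := by
  intro R _ _ _ _ _ G hsm x U hx hxU
  let ι : Spec (CommRingCat.of (IsLocalRing.ResidueField R)) ⟶ Spec (CommRingCat.of R) :=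
    Spec.map (CommRingCat.ofHom (IsLocalRing.residue R))
  haveI : IsClosedImmersion ι :=
    IsClosedImmersion.spec_of_surjective _ IsLocalRing.residue_surjective
  haveI : LocallyOfFiniteType G.hom := inferInstance
  let P := pullback G.hom ι
  let fst : P ⟶ G.left := pullback.fst _ _
  let snd : P ⟶ Spec (CommRingCat.of (IsLocalRing.ResidueField R)) := pullback.snd _ _
  haveI : LocallyOfFiniteType snd := inferInstance
  haveI : JacobsonSpace P := LocallyOfFiniteType.jacobsonSpace snd
  have hrange : x ∈ Set.range fst := by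
    have : Set.range fst = G.hom ⁻¹' Set.range ι := Scheme.Pullback.range_fst ..
    rw [this]
    refine ⟨IsLocalRing.closedPoint _, ?_⟩
    have hx' : G.hom x = IsLocalRing.closedPoint R := hx
    rw [hx']
    exact IsLocalRing.comap_closedPoint (IsLocalRing.residue R)
  obtain ⟨x', hx'⟩ := hrange
  have hlc : IsLocallyClosed (closure {x'} ∩ fst ⁻¹' (U : Set G.left)) :=
    isClosed_closure.isLocallyClosed.inter
      ((U.isOpen.preimage fst.continuous).isLocallyClosed)
  have hne : (closure {x'} ∩ fst ⁻¹' (U : Set G.left)).Nonempty :=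
    ⟨x', subset_closure rfl, by
      show fst x' ∈ U
      rw [hx']; exact hxU⟩
  obtain ⟨y, ⟨hy1, hy2⟩, hy3⟩ := nonempty_inter_closedPoints hne hlc
  have hyc : IsClosed {y} := hy3
  let r : specOver (IsLocalRing.residue R) ⟶ G :=
    Over.homMk (pointOfClosedPoint snd y hyc ≫ fst) (by
      show (pointOfClosedPoint snd y hyc ≫ fst) ≫ G.hom = ι
      rw [Category.assoc, show fst ≫ G.hom = snd ≫ ι from pullback.condition,
        pointOfClosedPoint_comp_assoc])
  obtain ⟨s, hs⟩ := h R G hsm r
  have hcpt : cpt s = fst y := by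
    rw [cpt_eq_redk, hs]
    show (pointOfClosedPoint snd y hyc ≫ fst) _ = _
    rw [Scheme.Hom.comp_apply, pointOfClosedPoint_apply]
  refine ⟨s, ?_, ?_⟩
  · rw [hcpt]; exact hy2
  · rw [hcpt, ← hx']
    have := image_closure_subset_closure_image (s := {x'}) fst.continuous ⟨y, hy1, rfl⟩
    simpa using this

end Pool.Agent.Helper82.Nm
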