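import Pool.Agent.Helper40.Nm.Goals

/-!
Packet BCH1 of MP_f619a5_ag: base change of Hopf algebras in stages.
-/

open TensorProduct

namespace Pool.Agent.Helper82.Nm

open Pool.Agent.Helper40.Nm

theorem bch1 : BCH1 := by
  intro K M E A _ _ _ _ _ _ _ _ _
  let f := Algebra.TensorProduct.cancelBaseChange K M E E A
  refine ⟨BialgEquiv.ofAlgEquiv f ?_ ?_⟩
  · ext a
    simp [f, Algebra.smul_def, ← IsScalarTower.algebraMap_apply]
  · ext a
    simp [f]
    generalize (CoalgebraStruct.comul a : A ⊗[K] A) = z
    induction z using TensorProduct.induction_on with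
    | zero => simp
    | tmul x y => simp
    | add u v hu hv => simp only [TensorProduct.tmul_add, map_add, hu, hv]

end Pool.Agent.Helper82.Nm
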